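import Mathlib
import Pool.Agent.U251.MV4.CW
import Pool.Agent.U398.MV.Stm6

/-!
# Project MV6, package CWF: short windows against long windows (helper873; adapted from
`Pool.Agent.U251.MV4.CW` of helper251)
-/

set_option autoImplicit false

namespace Pool.Agent.U873.MV6

open MeasureTheory Filter Topology Set Pool.Agent.U398.MV
open Pool.Agent.U251.MV4
open scoped Nat

noncomputable section

/-- moments of linear forms in differences -/
theorem mom_lin' {N : ℝ → ℕ} (hN : Monotone N) {p : ℕ} {C T : ℝ} (hC : 0 < C) (hT : 10 ≤ T)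
    {m : ℕ} (c x y : Fin m → ℝ)
    (hM : ∀ i, (∫ t in (3 * T / 4)..(3 * T), (sg N (t + x i) - sg N (t + y i)) ^ (2 * p)) ≤
      C * T * (1 + Real.log (1 + |x i - y i| * Real.log T)) ^ p)
    (hc : ∑ i, |c i| ≤ 1) {E : ℝ} (hE : 0 ≤ E)
    (hxy : ∀ i, |x i - y i| * Real.log T ≤ E) :
    (∫ t in (3 * T / 4)..(3 * T), (∑ i, c i * (sg N (t + x i) - sg N (t + y i))) ^ (2 * p)) ≤
      (C + 3) * T * (1 + Real.log (1 + E)) ^ p := by
  have hL : 0 ≤ Real.log T := Real.log_nonneg (by linarith)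
  have hT34 : 3 * T / 4 ≤ 3 * T := by linarith
  rcases Nat.eq_zero_or_pos p with hp | hp
  · subst hp
    simp only [Nat.mul_zero, pow_zero, intervalIntegral.integral_const, smul_eq_mul, mul_one]
    nlinarith
  have hl : 0 ≤ Real.log (1 + E) := Real.log_nonneg (by linarith)
  have h1 : ∀ i, LB fun t => |c i| * (sg N (t + x i) - sg N (t + y i)) ^ (2 * p) := fun i =>
    ((((LB_sg hN).shift (x i)).sub ((LB_sg hN).shift (y i))).pow (2 * p)).cmul _
  have h2 : LB fun t => (∑ i, c i * (sg N (t + x i) - sg N (t + y i))) ^ (2 * p) :=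
    (LB.sum _ fun i _ => ((((LB_sg hN).shift (x i)).sub ((LB_sg hN).shift (y i))).cmul _)).pow _
  calc (∫ t in (3 * T / 4)..(3 * T), (∑ i, c i * (sg N (t + x i) - sg N (t + y i))) ^ (2 * p))
      ≤ ∫ t in (3 * T / 4)..(3 * T), ∑ i, |c i| * (sg N (t + x i) - sg N (t + y i)) ^ (2 * p) := by
        refine intervalIntegral.integral_mono_on hT34 (h2.ii _ _) ((LB.sum _ fun i _ => h1 i).ii _ _)
          fun t _ => ?_
        have h3 := jensen c (fun i => sg N (t + x i) - sg N (t + y i)) hc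
          (show 1 ≤ 2 * p by omega)
        simp only [Even.pow_abs (even_two_mul p)] at h3
        exact h3
    _ = ∑ i, |c i| * ∫ t in (3 * T / 4)..(3 * T), (sg N (t + x i) - sg N (t + y i)) ^ (2 * p) := by
        rw [intervalIntegral.integral_finsetSum fun i _ => (h1 i).ii _ _]
        simp_rw [intervalIntegral.integral_const_mul]
    _ ≤ ∑ i, |c i| * (C * T * (1 + Real.log (1 + E)) ^ p) := by
        refine Finset.sum_le_sum fun i _ => mul_le_mul_of_nonneg_left ?_ (abs_nonneg _)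
        refine (hM i).trans ?_
        have h4 : 0 ≤ |x i - y i| * Real.log T := by positivity
        have h5 : 0 ≤ Real.log (1 + |x i - y i| * Real.log T) := Real.log_nonneg (by linarith)
        have h6 : Real.log (1 + |x i - y i| * Real.log T) ≤ Real.log (1 + E) :=
          Real.log_le_log (by linarith) (by linarith [hxy i])
        refine mul_le_mul_of_nonneg_left ?_ (by positivity)
        exact pow_le_pow_left₀ (by linarith) (by linarith) p
    _ = (∑ i, |c i|) * (C * T * (1 + Real.log (1 + E)) ^ p) := by rw [Finset.sum_mul]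
    _ ≤ 1 * ((C + 3) * T * (1 + Real.log (1 + E)) ^ p) := by
        have h7 : 0 ≤ T * (1 + Real.log (1 + E)) ^ p := by positivity
        refine mul_le_mul hc ?_ (by positivity) zero_le_one
        nlinarith
    _ = (C + 3) * T * (1 + Real.log (1 + E)) ^ p := one_mul _

/-- the logarithm cubed -/
theorem log3 {T : ℝ} (hT : 10 ≤ T) : T / Real.log T ^ 3 ≤ T / 4 := by
  have h1 : (2 : ℝ) ≤ Real.log T := by
    have h2 : Real.log 10 ≤ Real.log T := Real.log_le_log (by norm_num) hT
    have h3 : (2 : ℝ) ≤ Real.log 10 := by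
      rw [Real.le_log_iff_exp_le (by norm_num)]
      have := Real.exp_one_lt_d9
      have h4 : Real.exp 2 = Real.exp 1 ^ 2 := by rw [← Real.exp_nat_mul]; norm_num
      rw [h4]
      have h5 : Real.exp 1 ^ 2 ≤ 3 ^ 2 := pow_le_pow_left₀ (Real.exp_pos 1).le (by linarith) 2
      linarith
    linarith
  have h2 : (4 : ℝ) ≤ Real.log T ^ 3 := by
    have : (2 : ℝ) ^ 3 ≤ Real.log T ^ 3 := pow_le_pow_left₀ (by norm_num) h1 3
    linarith
  exact div_le_div_of_nonneg_left (by linarith) (by norm_num) h2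

/-- the form near the left end -/
theorem Gf_end {N : ℝ → ℕ} {g : ℕ → ℝ} {C1 : ℝ} (hC1 : 1 ≤ C1) (h : Cnt N g C1) {T : ℝ}
    (hT : 40 ≤ T) {m : ℕ} {c x : Fin m → ℝ} (hA : Adm T c x) {t : ℝ}
    (h1 : 3 * T / 4 - 2 * Real.pi ≤ t) (h2 : t ≤ 3 * T / 4) : |Gf N c x t| ≤ C1 * Real.log T := by
  obtain ⟨hc, -, hx⟩ := hA
  have h3 := log3 (T := T) (by linarith)
  have hpi := Real.pi_lt_d2
  have hL : 0 ≤ Real.log T := Real.log_nonneg (by linarith)
  unfold Gf
  calc |∑ i, c i * sg N (t + x i)| ≤ ∑ i, |c i| * (C1 * Real.log T) := by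
        refine (Finset.abs_sum_le_sum_abs _ _).trans (Finset.sum_le_sum fun i _ => ?_)
        rw [abs_mul]
        refine mul_le_mul_of_nonneg_left ?_ (abs_nonneg _)
        have h4 := abs_le.1 ((hx i).trans h3)
        refine (h.rvm _ (by linarith [h4.1])).trans ?_
        refine mul_le_mul_of_nonneg_left ?_ (by linarith)
        exact Real.log_le_log (by linarith [h4.1]) (by linarith [h4.2])
    _ = (∑ i, |c i|) * (C1 * Real.log T) := by rw [Finset.sum_mul]
    _ ≤ 1 * (C1 * Real.log T) := mul_le_mul_of_nonneg_right hc (by positivity)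
    _ = _ := one_mul _

/-- powers of the logarithm are small -/
theorem log_small (C1 : ℝ) (hC1 : 1 ≤ C1) (n : ℕ) : ∃ T0 : ℝ, 40 ≤ T0 ∧ ∀ T : ℝ, T0 ≤ T →
    2 * Real.pi * (C1 * Real.log T) ^ n ≤ T := by
  have h := (Real.isLittleO_pow_log_id_atTop (n := n)).def
    (show 0 < (2 * Real.pi * C1 ^ n)⁻¹ by positivity)
  obtain ⟨T0, hT0⟩ := eventually_atTop.1 h
  refine ⟨max T0 40, le_max_right _ _, fun T hT => ?_⟩
  have h1 := hT0 T ((le_max_left _ _).trans hT)
  have hT4 : 40 ≤ T := (le_max_right _ _).trans hT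
  have hL : 0 ≤ Real.log T := Real.log_nonneg (by linarith)
  simp only [id, Real.norm_eq_abs] at h1
  rw [abs_of_nonneg (by positivity), abs_of_nonneg (show 0 ≤ T by linarith),
    inv_mul_eq_div, le_div_iff₀ (by positivity)] at h1
  rw [mul_pow]
  linarith

/-- **package CWF** -/
theorem t_CWF : J_CWF := by
  intro hPU N g C1 hC1 hcnt hmom hF k
  obtain ⟨Cu, Tu, hCu, hTu, hU⟩ := hPU N g C1 hcnt hmom
  rcases Nat.eq_zero_or_pos k with hk | hk
  · subst hk
    refine ⟨1, 10, one_pos, le_rfl, fun T hT K hK _ m c x _ => ?_⟩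
    have hL : 0 < Real.log T := Real.log_pos (by linarith)
    have hK0 : (0 : ℝ) < K := by exact_mod_cast hK
    have e : ∀ w : ℝ, 0 < w → PA N g T w (fun _ t => Gf N c x t ^ 0) =
        ((Finset.Ioc (N T) (N (2 * T))).card : ℝ) := by
      intro w hw
      unfold PA
      simp only [pow_zero, intervalIntegral.integral_const, smul_eq_mul, mul_one]
      rw [← nsmul_one, ← Finset.sum_const]
      refine Finset.sum_congr rfl fun n _ => ?_
      field_simp
      ring
    rw [e _ (by positivity), e _ (by positivity), sub_self, abs_zero]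
    have h2 : 0 ≤ Real.log (1 + (K : ℝ)) := Real.log_nonneg (by linarith)
    positivity
  obtain ⟨k', rfl⟩ : ∃ k', k = k' + 1 := ⟨k - 1, by omega⟩
  obtain ⟨Ca, Ta, hCa, hTa, hMa⟩ := hF.1 2 (2 * Real.pi)
  obtain ⟨Cb, Tb, hCb, hTb, hMb⟩ := hF.2.2.1 (2 * k')
  obtain ⟨Tc, hTc, hMc⟩ := log_small C1 hC1 (4 * k')
  have hl8 : 0 ≤ Real.log 8 := Real.log_nonneg (by norm_num)
  obtain ⟨c₀, hc₀⟩ : ∃ c₀ : ℝ, c₀ = 1 + Real.log 8 := ⟨_, rfl⟩
  have hc₀1 : 1 ≤ c₀ := by rw [hc₀]; linarith
  -- the constant of the second moment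
  obtain ⟨C', hC'⟩ : ∃ C' : ℝ, C' = ((k' : ℝ) + 1) ^ 2 * ((Ca + 3) * c₀ ^ 2 +
    2 * (Cb + 1)) := ⟨_, rfl⟩
  have hC'0 : 0 < C' := by rw [hC']; positivity
  refine ⟨Cu * Real.sqrt C', max Tu (max Ta (max Tb Tc)), by positivity, le_max_of_le_left hTu, ?_⟩
  intro T hT K hK hKL m c x hAdm
  obtain ⟨hc1, hc0, hxT⟩ := id hAdm
  have hTu' : Tu ≤ T := (le_max_left _ _).trans hT
  have hTa' : Ta ≤ T := ((le_max_left _ _).trans (le_max_right _ _)).trans hT
  have hTb' : Tb ≤ T :=
    ((le_max_left _ _).trans ((le_max_right _ _).trans (le_max_right _ _))).trans hT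
  have hTc' : Tc ≤ T :=
    ((le_max_right _ _).trans ((le_max_right _ _).trans (le_max_right _ _))).trans hT
  have hT10 : 10 ≤ T := hTu.trans hTu'
  have hL : 0 < Real.log T := Real.log_pos (by linarith)
  have hK0 : (0 : ℝ) < K := by exact_mod_cast hK
  have hK1 : (1 : ℝ) ≤ K := by exact_mod_cast hK
  have hpi := Real.pi_pos
  have hpi4 : Real.pi < 3.15 := Real.pi_lt_d2
  obtain ⟨w, hw⟩ : ∃ w : ℝ, w = 2 * Real.pi / Real.log T := ⟨_, rfl⟩
  have hw0 : 0 < w := by rw [hw]; positivity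
  have hwL : w * Real.log T = 2 * Real.pi := by rw [hw]; field_simp
  have hW : 2 * Real.pi * K / Real.log T = K * w := by rw [hw]; ring
  have hD : 0 ≤ Real.log (1 + (K : ℝ)) := Real.log_nonneg (by linarith)
  have hQ : 0 ≤ |Vh T c x| := abs_nonneg _
  obtain ⟨D, hDd⟩ : ∃ D : ℝ, D = 1 + Real.log (1 + (K : ℝ)) := ⟨_, rfl⟩
  obtain ⟨Q, hQd⟩ : ∃ Q : ℝ, Q = 1 + |Vh T c x| := ⟨_, rfl⟩
  have hD0 : 0 < D := by rw [hDd]; linarith
  have hQ0 : 0 < Q := by rw [hQd]; linarith
  have hQ1 : 1 ≤ Q := by rw [hQd]; linarith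
  have hG : LB (Gf N c x) := LB_Gf hcnt.mono c x
  -- the shifts
  have hz : ∀ j < K, 0 ≤ (j : ℝ) * w ∧ (j : ℝ) * w ≤ 2 * Real.pi ∧
      (j : ℝ) * w * Real.log T ≤ 2 * Real.pi * K := by
    intro j hj
    have hjK : (j : ℝ) ≤ K := by exact_mod_cast hj.le
    have h1 : (j : ℝ) * w * Real.log T ≤ 2 * Real.pi * K := by
      rw [mul_assoc, hwL]
      have := mul_le_mul_of_nonneg_left hjK (show 0 ≤ 2 * Real.pi by positivity)
      linarith
    refine ⟨by positivity, ?_, h1⟩
    have h2 : (j : ℝ) * w * Real.log T ≤ 2 * Real.pi * Real.log T :=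
      h1.trans (mul_le_mul_of_nonneg_left hKL (by positivity))
    exact le_of_mul_le_mul_right h2 hL
  have hbound : ∀ j < K, PA N g T w (fun _ t =>
      |Gf N c x (t + -(j * w)) ^ (k' + 1) - Gf N c x t ^ (k' + 1)|) ≤
      Cu * Real.log T * Real.sqrt T * Real.sqrt (C' * T * D * Q ^ k') := by
    intro j hj
    obtain ⟨z0, z1, z2⟩ := hz j hj
    obtain ⟨z, hzd⟩ : ∃ z : ℝ, z = -(j * w) := ⟨_, rfl⟩
    rw [← hzd]
    have hzabs : |z| = j * w := by rw [hzd, abs_neg, abs_of_nonneg z0]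
    have hGz : LB fun t => Gf N c x (t + z) := hG.shift z
    have hdiff : LB fun t => Gf N c x (t + z) ^ (k' + 1) - Gf N c x t ^ (k' + 1) :=
      (hGz.pow _).sub (hG.pow _)
    have h1 := hU T hTu' (fun t => |Gf N c x (t + z) ^ (k' + 1) - Gf N c x t ^ (k' + 1)|)
      (fun t => abs_nonneg _) hdiff.abs.meas.aestronglyMeasurable (by
        have := ((hdiff.abs.pow 2).ii (3 * T / 4) (3 * T))
        rw [intervalIntegrable_iff_integrableOn_Icc_of_le (by linarith)] at this
        exact this)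
    rw [← hw] at h1
    refine h1.trans (mul_le_mul_of_nonneg_left (Real.sqrt_le_sqrt ?_) (by positivity))
    -- the second moment
    obtain ⟨θ, hθd⟩ : ∃ θ : ℝ, θ = Q ^ k' / D := ⟨_, rfl⟩
    have hθ : 0 < θ := by rw [hθd]; positivity
    have p1 : (∫ t in (3 * T / 4)..(3 * T), (Gf N c x (t + z) - Gf N c x t) ^ 4) ≤
        (Ca + 3) * T * (c₀ * D) ^ 2 := by
      have q := mom_lin' hcnt.mono (p := 2) hCa hT10 c (fun i => z + x i) x
        (fun i => hMa T hTa' (z + x i) (x i) (by
          refine (abs_add_le _ _).trans ?_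
          rw [hzabs]
          linarith [hxT i]) (by
          rw [add_sub_cancel_right, hzabs]
          exact z1)) hc1 (E := 2 * Real.pi * K) (by positivity)
        (fun i => by
          rw [add_sub_cancel_right, hzabs]
          exact z2)
      have e1 : ∀ t, Gf N c x (t + z) - Gf N c x t =
          ∑ i, c i * (sg N (t + (z + x i)) - sg N (t + x i)) := by
        intro t
        unfold Gf
        rw [← Finset.sum_sub_distrib]
        refine Finset.sum_congr rfl fun i _ => ?_
        rw [add_assoc]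
        ring
      simp_rw [e1]
      refine q.trans ?_
      have e2 : 1 + Real.log (1 + 2 * Real.pi * K) ≤ c₀ * D := by
        rw [hc₀, hDd]
        have h8 : Real.pi * K ≤ 3.15 * K := mul_le_mul_of_nonneg_right hpi4.le hK0.le
        exact log_le8 (by positivity) (by linarith) (by linarith)
      have e3 : 0 ≤ Real.log (1 + 2 * Real.pi * K) := Real.log_nonneg (by
        have : 0 ≤ 2 * Real.pi * K := by positivity
        linarith)
      exact mul_le_mul_of_nonneg_left (pow_le_pow_left₀ (by linarith) e2 2) (by positivity)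
    have ev : Even (4 * k') := ⟨2 * k', by ring⟩
    have p4 : (∫ t in (3 * T / 4)..(3 * T), Gf N c x t ^ (4 * k')) ≤ (Cb + 1) * T * Q ^ (2 * k') := by
      have q := hMb T hTb' m c x hAdm
      rw [show 2 * (2 * k') = 4 * k' by ring, ← hQd] at q
      refine q.trans (mul_le_mul_of_nonneg_right ?_ (by positivity))
      nlinarith
    have p3 : (∫ t in (3 * T / 4)..(3 * T), Gf N c x (t + z) ^ (4 * k')) ≤
        (Cb + 1) * T * Q ^ (2 * k') := by
      have q := hMb T hTb' m c x hAdm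
      rw [show 2 * (2 * k') = 4 * k' by ring, ← hQd] at q
      have hz0 : z ≤ 0 := by rw [hzd]; linarith
      have hz1 : -(2 * Real.pi) ≤ z := by rw [hzd]; linarith
      have L3 : LB fun t => Gf N c x t ^ (4 * k') := hG.pow _
      have i1 : (∫ t in (3 * T / 4)..(3 * T), Gf N c x (t + z) ^ (4 * k')) =
          ∫ t in (3 * T / 4 + z)..(3 * T + z), Gf N c x t ^ (4 * k') :=
        intervalIntegral.integral_comp_add_right (fun t => Gf N c x t ^ (4 * k')) z
      have i2 := intervalIntegral.integral_add_adjacent_intervals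
        (L3.ii (3 * T / 4 + z) (3 * T / 4)) (L3.ii (3 * T / 4) (3 * T + z))
      have i3 := intervalIntegral.integral_add_adjacent_intervals
        (L3.ii (3 * T / 4) (3 * T + z)) (L3.ii (3 * T + z) (3 * T))
      have i4 : 0 ≤ ∫ t in (3 * T + z)..(3 * T), Gf N c x t ^ (4 * k') :=
        intervalIntegral.integral_nonneg (by linarith) fun t _ => ev.pow_nonneg _
      have i5 : (∫ t in (3 * T / 4 + z)..(3 * T / 4), Gf N c x t ^ (4 * k')) ≤ T := by
        have j1 : (∫ t in (3 * T / 4 + z)..(3 * T / 4), Gf N c x t ^ (4 * k')) ≤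
            ∫ t in (3 * T / 4 + z)..(3 * T / 4), (C1 * Real.log T) ^ (4 * k') := by
          refine intervalIntegral.integral_mono_on (by linarith) (L3.ii _ _)
            intervalIntegrable_const fun t ht => ?_
          rw [← ev.pow_abs]
          exact pow_le_pow_left₀ (abs_nonneg _) (Gf_end hC1 hcnt (hTc.trans hTc') hAdm
            (by linarith [ht.1]) ht.2) _
        refine j1.trans ?_
        rw [intervalIntegral.integral_const, smul_eq_mul]
        refine le_trans ?_ (hMc T hTc')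
        exact mul_le_mul_of_nonneg_right (by linarith) (by positivity)
      have hQk : 1 ≤ Q ^ (2 * k') := one_le_pow₀ hQ1
      rw [i1, ← i2]
      have hT0 : 0 < T := by linarith
      have e9 : T ≤ T * Q ^ (2 * k') := le_mul_of_one_le_right hT0.le hQk
      have e8 : (Cb + 1) * T * Q ^ (2 * k') = Cb * T * Q ^ (2 * k') + T * Q ^ (2 * k') := by ring
      rw [e8]
      linarith
    have L1 : LB fun t => (Gf N c x (t + z) - Gf N c x t) ^ 4 := (hGz.sub hG).pow 4
    have L2 : LB fun t => Gf N c x (t + z) ^ (4 * k') := hGz.pow _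
    have L3 : LB fun t => Gf N c x t ^ (4 * k') := hG.pow _
    calc (∫ t in (3 * T / 4)..(3 * T),
          |Gf N c x (t + z) ^ (k' + 1) - Gf N c x t ^ (k' + 1)| ^ 2)
        ≤ ∫ t in (3 * T / 4)..(3 * T), ((k' : ℝ) + 1) ^ 2 *
          (θ * (Gf N c x (t + z) - Gf N c x t) ^ 4 +
            θ⁻¹ * (Gf N c x (t + z) ^ (4 * k') + Gf N c x t ^ (4 * k'))) := by
          refine intervalIntegral.integral_mono_on (by linarith) ((hdiff.abs.pow 2).ii _ _)
            ((((L1.cmul θ).add ((L2.add L3).cmul θ⁻¹)).cmul _).ii _ _) fun t _ => ?_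
          have := ptw_pow (Gf N c x (t + z)) (Gf N c x t) k' hθ
          rw [div_eq_inv_mul] at this
          rw [sq_abs]
          exact this
      _ = ((k' : ℝ) + 1) ^ 2 * (θ * (∫ t in (3 * T / 4)..(3 * T),
            (Gf N c x (t + z) - Gf N c x t) ^ 4) +
            θ⁻¹ * ((∫ t in (3 * T / 4)..(3 * T), Gf N c x (t + z) ^ (4 * k')) +
              ∫ t in (3 * T / 4)..(3 * T), Gf N c x t ^ (4 * k'))) := by
          rw [intervalIntegral.integral_const_mul,
            intervalIntegral.integral_add ((L1.cmul θ).ii _ _) (((L2.add L3).cmul θ⁻¹).ii _ _),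
            intervalIntegral.integral_const_mul, intervalIntegral.integral_const_mul,
            intervalIntegral.integral_add (L2.ii _ _) (L3.ii _ _)]
      _ ≤ ((k' : ℝ) + 1) ^ 2 * (θ * ((Ca + 3) * T * (c₀ * D) ^ 2) +
            θ⁻¹ * ((Cb + 1) * T * Q ^ (2 * k') + (Cb + 1) * T * Q ^ (2 * k'))) := by
          refine mul_le_mul_of_nonneg_left (add_le_add ?_ ?_) (by positivity)
          · exact mul_le_mul_of_nonneg_left p1 hθ.le
          · exact mul_le_mul_of_nonneg_left (add_le_add p3 p4) (by positivity)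
      _ = C' * T * D * Q ^ k' := by
          rw [hθd, hC', mul_pow, pow_mul Q, inv_div]
          have e5 : (Q ^ 2) ^ k' = Q ^ k' * Q ^ k' := by rw [← mul_pow, ← pow_two]
          rw [e5]
          field_simp
          ring
  have hfin := PA_diff (N := N) (g := g) (T := T) (hG.pow (k' + 1)) hw0 hK hbound
  rw [hW, ← hw]
  refine hfin.trans (le_of_eq ?_)
  have s1 : Real.sqrt (C' * T * D * Q ^ k') =
      Real.sqrt C' * Real.sqrt T * Real.sqrt D * Real.sqrt (Q ^ k') := by
    rw [Real.sqrt_mul (by positivity), Real.sqrt_mul (by positivity), Real.sqrt_mul (by positivity)]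
  have s2 : Real.sqrt (Q ^ k') = Q ^ ((((k' + 1 : ℕ) : ℝ) - 1) / 2) := by
    rw [Real.sqrt_eq_rpow, ← Real.rpow_natCast, ← Real.rpow_mul hQ0.le]
    congr 1
    push_cast
    ring
  have s3 : Real.sqrt D = D ^ (1 / 2 : ℝ) := Real.sqrt_eq_rpow D
  have s4 : Real.sqrt T * Real.sqrt T = T := Real.mul_self_sqrt (by linarith)
  rw [s1, s2, s3, ← hDd, ← hQd]
  calc Cu * Real.log T * Real.sqrt T * (Real.sqrt C' * Real.sqrt T * D ^ (1 / 2 : ℝ) *
        Q ^ ((((k' + 1 : ℕ) : ℝ) - 1) / 2)) =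
      Cu * Real.sqrt C' * ((Real.sqrt T * Real.sqrt T) * Real.log T) *
        Q ^ ((((k' + 1 : ℕ) : ℝ) - 1) / 2) * D ^ (1 / 2 : ℝ) := by ring
    _ = _ := by rw [s4]

end

end Pool.Agent.U873.MV6
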